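import Pool.Agent.Q264.SidExp

/-!
# Linear bounds on Sidorenko exponents of bounded-degree hypergraphs

For every `r ≥ 2` there is a function `f : ℕ → ℕ` such that every `r`-partite `r`-graph `F` of
maximum degree at most `Δ` satisfies `s(F) ≤ f(Δ) e(F)`.
-/

namespace Pool.Agent.Results.MP_30cdc8_co.LinearBound

open Pool.Agent.Q264.SidExp

theorem result : ∀ r : ℕ, 2 ≤ r → ∃ f : ℕ → ℕ, ∀ (Δ : ℕ) (F : RGraph r),
    F.IsPartite → (∀ v : F.V, F.degree v ≤ Δ) →
      F.sidorenkoExponent ≤ (((f Δ * F.edges.card : ℕ) : ℝ) : EReal) :=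
  fun r hr => sidorenkoExponent_le r hr

end Pool.Agent.Results.MP_30cdc8_co.LinearBound
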